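import Mathlib

namespace Pool.Agent.Results.MP_9bafdc_mp.NotFormStar

open MvPolynomial

/-- polynomial functions of the entries of `N` matrices of size `m` -/
abbrev Fn (m N : ℕ) := MvPolynomial (Fin N × Fin m × Fin m) ℂ

/-- the generic matrices -/
noncomputable def gen (m N : ℕ) (α : Fin N) : Matrix (Fin m) (Fin m) (Fn m N) :=
  Matrix.of fun i j => X (α, i, j)

/-- substitution `x_α ↦ g x_α g⁻¹` -/
noncomputable def conj {m N : ℕ} (g : GL (Fin m) ℂ) : Fn m N →ₐ[ℂ] Fn m N :=
  aeval fun v => ((g : Matrix (Fin m) (Fin m) ℂ).map C * gen m N v.1 *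
    ((g⁻¹ : GL (Fin m) ℂ) : Matrix (Fin m) (Fin m) ℂ).map C : Matrix (Fin m) (Fin m) (Fn m N))
      v.2.1 v.2.2

/-- the value of a word at the generic matrices -/
noncomputable def word {m N : ℕ} (u : List (Fin N)) : Matrix (Fin m) (Fin m) (Fn m N) :=
  (u.map (gen m N)).prod

/-- bilinear brackets on polynomial functions -/
abbrev Br (m N : ℕ) := Fn m N →ₗ[ℂ] Fn m N →ₗ[ℂ] Fn m N

/-- the trace of a matrix polynomial -/
noncomputable def tr (m : ℕ) {N : ℕ} (P : FreeAlgebra ℂ (Fin N)) : Fn m N :=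
  (FreeAlgebra.lift ℂ (gen m N) P).trace

def IsPoisson {m N : ℕ} (B : Br m N) : Prop :=
  (∀ f g, B f g = -B g f) ∧ (∀ f g h, B f (g * h) = B f g * h + g * B f h) ∧
    ∀ f g h, B f (B g h) + B g (B h f) + B h (B f g) = 0

def IsTrace {m N : ℕ} (B : Br m N) : Prop :=
  (∀ g f h, B (conj g f) (conj g h) = conj g (B f h)) ∧
    ∀ P₁ P₂, ∃ P₃, B (tr m P₁) (tr m P₂) = tr m P₃

def FormStar {m N : ℕ} (k : ℕ) (B : Br m N) : Prop :=
  ∃ c : Fin N → Fin N → (Fin k → Fin N) → Fin (k + 1) → ℂ, ∀ α β i j i' j',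
    B (X (α, i, j)) (X (β, i', j')) = ∑ w : Fin k → Fin N, ∑ s : Fin (k + 1),
      c α β w s • (word ((List.ofFn w).take s) i j' * word ((List.ofFn w).drop s) i' j)

section
variable {m N : ℕ}

lemma dmul (D : Derivation ℂ (Fn m N) (Fn m N)) (P Q : Matrix (Fin m) (Fin m) (Fn m N)) :
    (P * Q).map D = P.map D * Q + P * Q.map D := by
  ext1 i j
  simp [Matrix.mul_apply, Finset.sum_add_distrib, mul_comm, add_comm]

lemma dC (D : Derivation ℂ (Fn m N) (Fn m N)) (g : Matrix (Fin m) (Fin m) ℂ) :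
    (g.map C : Matrix _ _ (Fn m N)).map D = 0 := by
  ext1 i j
  simp

lemma done (D : Derivation ℂ (Fn m N) (Fn m N)) : (1 : Matrix (Fin m) (Fin m) (Fn m N)).map D = 0 := by
  ext1 i j
  by_cases h : i = j <;> simp [Matrix.one_apply, h]

noncomputable def der (F : Fin N → Matrix (Fin m) (Fin m) (Fn m N)) :
    Derivation ℂ (Fn m N) (Fn m N) := mkDerivation ℂ fun v => F v.1 v.2.1 v.2.2

lemma der_gen (F : Fin N → Matrix (Fin m) (Fin m) (Fn m N)) (α : Fin N) :
    (gen m N α).map (der F) = F α := by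
  ext1 i j
  simp [gen, der]

lemma conj_gen (g : GL (Fin m) ℂ) (α : Fin N) : (conj g).mapMatrix (gen m N α) =
    (g : Matrix (Fin m) (Fin m) ℂ).map C * gen m N α *
    ((g⁻¹ : GL (Fin m) ℂ) : Matrix (Fin m) (Fin m) ℂ).map C := by
  ext1 i j
  simp [gen, conj]

lemma conj_lift (g : GL (Fin m) ℂ) (P : FreeAlgebra ℂ (Fin N)) :
    (conj g).mapMatrix (FreeAlgebra.lift ℂ (gen m N) P) =
    (g : Matrix (Fin m) (Fin m) ℂ).map C * FreeAlgebra.lift ℂ (gen m N) P *
    ((g⁻¹ : GL (Fin m) ℂ) : Matrix (Fin m) (Fin m) ℂ).map C := by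
  have a : (g : Matrix (Fin m) (Fin m) ℂ).map C *
      ((g⁻¹ : GL (Fin m) ℂ) : Matrix (Fin m) (Fin m) ℂ).map C = (1 : Matrix _ _ (Fn m N)) := by
    rw [← Matrix.map_mul, Units.mul_inv, Matrix.map_one _ (map_zero _) (map_one _)]
  have b := mul_eq_one_comm.1 a
  induction P using FreeAlgebra.induction with
  | grade0 r =>
    rw [AlgHom.commutes, AlgHom.commutes, Algebra.algebraMap_eq_smul_one, mul_smul_comm, mul_one,
      smul_mul_assoc, a]
  | grade1 x => rw [FreeAlgebra.lift_ι_apply, conj_gen]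
  | mul p q hp hq =>
    rw [map_mul, map_mul, hp, hq]
    simp only [mul_assoc]
    rw [← mul_assoc (((g⁻¹ : GL (Fin m) ℂ) : Matrix (Fin m) (Fin m) ℂ).map C), b, one_mul]
  | add p q hp hq => rw [map_add, map_add, hp, hq, mul_add, add_mul]

lemma der_conj (F : Fin N → FreeAlgebra ℂ (Fin N)) (g : GL (Fin m) ℂ) (f : Fn m N) :
    der (fun α => FreeAlgebra.lift ℂ (gen m N) (F α)) (conj g f) =
      conj g (der (fun α => FreeAlgebra.lift ℂ (gen m N) (F α)) f) := by
  have k : ∀ v, der (fun α => FreeAlgebra.lift ℂ (gen m N) (F α)) (conj g (X v)) =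
      conj g (der (fun α => FreeAlgebra.lift ℂ (gen m N) (F α)) (X v)) := by
    rintro ⟨α, i, j⟩
    have h1 := congrArg (fun M => (M.map (der fun α => FreeAlgebra.lift ℂ (gen m N) (F α))) i j)
      (conj_gen g α)
    simp only [dmul, dC, der_gen, zero_mul, mul_zero, zero_add, add_zero, ← conj_lift] at h1
    have h2 := congrFun (congrFun (der_gen (fun α => FreeAlgebra.lift ℂ (gen m N) (F α)) α) i) j
    simp only [gen, Matrix.map_apply, Matrix.of_apply, AlgHom.mapMatrix_apply] at h1 h2 ⊢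
    rw [h1, h2]
  induction f using MvPolynomial.induction_on with
  | C a => simp [conj]
  | add p q hp hq => simp [hp, hq]
  | mul_X p v hp => simp [hp, k]

lemma inner_lift (a : Matrix (Fin m) (Fin m) (Fn m N)) (P : FreeAlgebra ℂ (Fin N)) :
    (FreeAlgebra.lift ℂ (gen m N) P).map (der fun α => a * gen m N α - gen m N α * a) =
      a * FreeAlgebra.lift ℂ (gen m N) P - FreeAlgebra.lift ℂ (gen m N) P * a := by
  induction P using FreeAlgebra.induction with
  | grade0 r =>
    rw [AlgHom.commutes, Algebra.algebraMap_eq_smul_one, mul_smul_comm, smul_mul_assoc, mul_one,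
      one_mul, sub_self, Matrix.map_smul _ _ (Derivation.map_smul _ _), done, smul_zero]
  | grade1 x => simp [der_gen]
  | mul p q hp hq => rw [map_mul, dmul, hp, hq]; noncomm_ring
  | add p q hp hq => rw [map_add, Matrix.map_add _ (map_add _), hp, hq]; noncomm_ring

lemma hom_mul {P Q : Matrix (Fin m) (Fin m) (Fn m N)} {a b : ℕ}
    (hP : ∀ i j, (P i j).IsHomogeneous a) (hQ : ∀ i j, (Q i j).IsHomogeneous b) (i j) :
    ((P * Q) i j).IsHomogeneous (a + b) :=
  IsHomogeneous.sum _ _ _ fun l _ => (hP i l).mul (hQ l j)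

lemma hom_pow (α : Fin N) (n : ℕ) (i j) : ((gen m N α ^ n) i j).IsHomogeneous n := by
  induction n generalizing i j with
  | zero =>
    by_cases h : i = j
    · simpa [h] using isHomogeneous_one _ _
    · simpa [Matrix.one_apply, h] using isHomogeneous_zero _ _ _
  | succ n ih => exact pow_succ (gen m N α) n ▸ hom_mul ih (fun _ _ => isHomogeneous_X _ _) i j

lemma dpow (D : Derivation ℂ (Fn m N) (Fn m N)) (P : Matrix (Fin m) (Fin m) (Fn m N))
    (h : P.map D = 0) (n : ℕ) : (P ^ n).map D = 0 := by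
  induction n with
  | zero => simp [done]
  | succ n ih => rw [pow_succ, dmul, ih, h, zero_mul, mul_zero, add_zero]

lemma fields (a b : Fin N) (ab : a ≠ b) (n : ℕ) : ∃ V W : Derivation ℂ (Fn m N) (Fn m N),
    (∀ α i j, V (X (α, i, j)) = (gen m N a * gen m N α - gen m N α * gen m N a) i j) ∧
    (∀ α i j, W (X (α, i, j)) = (if α = b then gen m N a ^ n else 0) i j) ∧
    (∀ f, V (W f) = W (V f)) ∧ (∀ g f, V (conj g f) = conj g (V f)) ∧
    (∀ g f, W (conj g f) = conj g (W f)) ∧
    ∀ P : FreeAlgebra ℂ (Fin N), V (FreeAlgebra.lift ℂ (gen m N) P).trace = 0 := by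
  have VX : ∀ F : Fin N → Matrix (Fin m) (Fin m) (Fn m N), ∀ α i j, der F (X (α, i, j)) = F α i j :=
    fun F α i j => congrFun (congrFun (der_gen _ α) i) j
  refine ⟨der fun α => gen m N a * gen m N α - gen m N α * gen m N a,
    der fun α => if α = b then gen m N a ^ n else 0, VX _, VX _, ?_, fun g f => ?_, fun g f => ?_,
    fun P => ?_⟩
  · have : ⁅der fun α => gen m N a * gen m N α - gen m N α * gen m N a,
        der fun α => if α = b then gen m N a ^ n else 0⁆ = 0 := by
      refine MvPolynomial.derivation_ext fun ⟨α, i, j⟩ => ?_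
      have h1 : (if α = b then gen m N a ^ n else 0).map
          (der fun α => gen m N a * gen m N α - gen m N α * gen m N a) = 0 := by
        split_ifs
        · exact dpow _ _ (by rw [der_gen, sub_self]) _
        · exact Matrix.map_zero _ (map_zero _)
      have h2 : (gen m N a * gen m N α - gen m N α * gen m N a).map
          (der fun α => if α = b then gen m N a ^ n else 0) = 0 := by
        rw [Matrix.map_sub _ (map_sub _), dmul, dmul, der_gen, der_gen, if_neg ab]
        split_ifs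
        · rw [zero_mul, mul_zero, zero_add, add_zero, ← pow_succ, ← pow_succ', sub_self]
        · simp
      rw [Derivation.commutator_apply, VX, VX]
      exact sub_eq_zero.2 ((congrFun (congrFun h1 i) j).trans (congrFun (congrFun h2 i) j).symm)
    intro f
    exact sub_eq_zero.1 ((Derivation.commutator_apply f).symm.trans (by rw [this]; rfl))
  · have := der_conj (fun α => FreeAlgebra.ι ℂ a * FreeAlgebra.ι ℂ α -
      FreeAlgebra.ι ℂ α * FreeAlgebra.ι ℂ a) g f
    simpa only [map_sub, map_mul, FreeAlgebra.lift_ι_apply] using this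
  · have := der_conj (fun α => if α = b then FreeAlgebra.ι ℂ a ^ n else 0) g f
    simpa only [apply_ite (FreeAlgebra.lift ℂ (gen m N)), map_pow, map_zero,
      FreeAlgebra.lift_ι_apply] using this
  · have := congrArg Matrix.trace (inner_lift (gen m N a) P)
    rw [Matrix.trace_sub, Matrix.trace_mul_comm, sub_self] at this
    rw [Matrix.trace, map_sum]
    exact this

lemma point (a b : Fin N) (ab : a ≠ b) (n : ℕ) (i0 i1 i2 : Fin m) (h01 : i0 ≠ i1) (h02 : i0 ≠ i2)
    (h12 : i1 ≠ i2) : ∃ e : Fn m N →ₐ[ℂ] ℂ, (∀ u : List (Fin N), e (word u i0 i2) = 0) ∧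
      e ((gen m N a * gen m N b - gen m N b * gen m N a) i0 i1) = 1 ∧
      e ((gen m N a ^ n) i2 i2) = 1 ∧ e ((gen m N a ^ n) i0 i1) = 0 := by
  obtain ⟨D, hD⟩ : ∃ D : Matrix (Fin m) (Fin m) ℂ,
    D = Matrix.diagonal fun i => if i = i1 then 0 else 1 := ⟨_, rfl⟩
  obtain ⟨M, hM⟩ : ∃ M : Fin N → Matrix (Fin m) (Fin m) ℂ,
    M = fun α => if α = a then D else Matrix.single i0 i1 1 := ⟨_, rfl⟩
  obtain ⟨e, eg⟩ : ∃ e : Fn m N →ₐ[ℂ] ℂ, ∀ α, e.mapMatrix (gen m N α) = M α :=
    ⟨aeval fun v => M v.1 v.2.1 v.2.2, fun α => by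
      ext i j
      simp [gen]⟩
  have p : ∀ P : Matrix (Fin m) (Fin m) (Fn m N), ∀ i j, e (P i j) = e.mapMatrix P i j :=
    fun _ _ _ => rfl
  have w0 : ∀ (u : List (Fin N)) i, i ≠ i2 → e (word u i i2) = 0 := by
    intro u
    induction u using List.reverseRecOn with
    | nil => intro i hi; simp [word, hi]
    | append_singleton u α ih =>
      intro i hi
      have : word (u ++ [α]) = word u * gen m N α := by simp [word]
      rw [this, Matrix.mul_apply, map_sum]
      refine Finset.sum_eq_zero fun l _ => ?_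
      by_cases hl : l = i2
      · rw [hl, map_mul, ih i hi, zero_mul]
      · rw [map_mul, p (gen m N α), eg, hM]
        dsimp only
        split_ifs <;> simp [hD, hl, h12]
  refine ⟨e, fun u => w0 u i0 h02, ?_, ?_, ?_⟩
  · rw [p, map_sub, map_mul, map_mul, eg, eg]
    simp [hM, hD, ab.symm, h01]
  · rw [p, map_pow, eg]
    simp [hM, hD, Matrix.diagonal_pow, h12.symm]
  · rw [p, map_pow, eg]
    simp [hM, hD, Matrix.diagonal_pow, h01]

end

theorem result (k m N : ℕ) (hk : 2 ≤ k) (hm : 3 ≤ m) (hN : 2 ≤ N) :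
    ∃ B : Br m N, IsPoisson B ∧ IsTrace B ∧ (∀ v w, (B (X v) (X w)).IsHomogeneous k) ∧
      ¬ FormStar k B := by
  obtain ⟨a, b, ab⟩ : ∃ a b : Fin N, a ≠ b := ⟨⟨0, by omega⟩, ⟨1, by omega⟩, by simp⟩
  obtain ⟨V, W, VX, WX, VW, cV, cW, tV⟩ := fields (m := m) a b ab (k - 2)
  have hV : ∀ v, (V (X v)).IsHomogeneous 2 := fun ⟨α, i, j⟩ => by
    rw [VX]
    exact (hom_mul (fun _ _ => isHomogeneous_X _ _) (fun _ _ => isHomogeneous_X _ _) i j).sub
      (hom_mul (fun _ _ => isHomogeneous_X _ _) (fun _ _ => isHomogeneous_X _ _) i j)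
  have hW : ∀ v, (W (X v)).IsHomogeneous (k - 2) := fun ⟨α, i, j⟩ => by
    rw [WX]
    split_ifs
    · exact hom_pow _ _ _ _
    · exact isHomogeneous_zero _ _ _
  refine ⟨LinearMap.mk₂ ℂ (fun f g => V f * W g - W f * V g) ?_ ?_ ?_ ?_, ⟨?_, ?_, ?_⟩, ⟨?_, ?_⟩, ?_, ?_⟩
  · intros; simp only [map_add]; ring
  · intros; simp only [Derivation.map_smul, smul_sub, smul_mul_assoc]
  · intros; simp only [map_add]; ring
  · intros; simp only [Derivation.map_smul, smul_sub, mul_smul_comm]
  · intros; simp only [LinearMap.mk₂_apply]; ring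
  · intros; simp only [LinearMap.mk₂_apply, Derivation.leibniz, smul_eq_mul]; ring
  · intros; simp only [LinearMap.mk₂_apply, Derivation.leibniz, smul_eq_mul, map_sub, VW]; ring
  · intros; simp only [LinearMap.mk₂_apply, cV, cW, map_sub, map_mul]
  · intro P Q
    exact ⟨0, by simp only [tr, LinearMap.mk₂_apply, tV, map_zero, Matrix.trace_zero]; ring⟩
  · intro v w
    have e : k = 2 + (k - 2) := by omega
    rw [LinearMap.mk₂_apply, mul_comm (W _), e]
    exact ((hV v).mul (hW w)).sub ((hV w).mul (hW v))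
  rintro ⟨c, hc⟩
  obtain ⟨e, e0, e1, e2, e3⟩ := point a b ab (k - 2) (⟨0, by omega⟩ : Fin m) ⟨1, by omega⟩
    ⟨2, by omega⟩ (by simp) (by simp) (by simp)
  have := congrArg e (hc b b ⟨0, by omega⟩ ⟨1, by omega⟩ ⟨2, by omega⟩ ⟨2, by omega⟩)
  simp only [LinearMap.mk₂_apply, VX, WX, map_sum, map_smul, map_mul, if_true, map_sub e (_ * _),
    e0, e1, e2, e3, zero_mul, smul_zero, Finset.sum_const_zero] at this
  norm_num at this

end Pool.Agent.Results.MP_9bafdc_mp.NotFormStar
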